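import Mathlib

/-!
# An exterior Helmholtz field with positive integrated Lagrangian
-/

set_option autoImplicit false

open Filter Topology Set MeasureTheory Metric Bornology
open scoped ContDiff RealInnerProductSpace

namespace Pool.Agent.Results.MP_871f9b_an.PositiveLagrangian

/-- `ℝ³`. -/
abbrev E3 := EuclideanSpace ℝ (Fin 3)

/-- The `i`-th unit vector. -/
noncomputable def ev (i : Fin 3) : E3 := EuclideanSpace.single i 1

/-- The Laplacian `∑ᵢ ∂ᵢ∂ᵢ u`. -/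
noncomputable def lap (u : E3 → ℂ) (x : E3) : ℂ :=
  ∑ i, fderiv ℝ (fun y => fderiv ℝ u y (ev i)) x (ev i)

/-- `V` is a compact region, star-shaped with respect to the origin, with smooth boundary
`{F = 0}`, `∇F ≠ 0`, where `V = {F ≤ 0}`. -/
structure SmoothRegion (V : Set E3) (F : E3 → ℝ) : Prop where
  isCompact : IsCompact V
  interior_nonempty : (0 : E3) ∈ interior V
  starConvex : StarConvex ℝ 0 V
  smooth : ContDiff ℝ ∞ F
  eq : V = {x | F x ≤ 0}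
  frontier_eq : frontier V = {x | F x = 0}
  grad : ∀ x, F x = 0 → gradient F x ≠ 0

/-- `u` is a radiating solution of the Helmholtz equation `Δu + u = 0` outside `V`, smooth up to the
boundary. -/
structure RadiatingField (V : Set E3) (u : E3 → ℂ) : Prop where
  smooth : ∃ U : Set E3, IsOpen U ∧ closure Vᶜ ⊆ U ∧ ContDiffOn ℝ ∞ u U
  helmholtz : ∀ x, x ∉ V → lap u x + u x = 0
  radiation : ∃ f : E3 → ℂ, ContDiffOn ℝ ∞ f {0}ᶜ ∧
    Tendsto (fun x : E3 => ‖x‖ * ‖u x - Complex.exp (Complex.I * ‖x‖) / ‖x‖ * f (‖x‖⁻¹ • x)‖)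
      (cobounded E3) (𝓝 0)

/-- The density `|u|² - |∇u|²`. -/
noncomputable def density (u : E3 → ℂ) (x : E3) : ℝ :=
  ‖u x‖ ^ 2 - ∑ i, ‖fderiv ℝ u x (ev i)‖ ^ 2

/-- The integrated Lagrangian of the exterior field. -/
noncomputable def lagrangian (V : Set E3) (u : E3 → ℂ) : ℝ :=
  1 / 2 * ∫ x in Vᶜ, density u x

/-! ### The dipole field -/

/-- `g(r) = (i r - 1) e^{ir} / r³`. -/
noncomputable def g0 (r : ℝ) : ℂ :=
  Complex.exp (Complex.I * r) * (Complex.I * (r : ℂ)⁻¹ ^ 2 - (r : ℂ)⁻¹ ^ 3)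

/-- `g'(r) / r`. -/
noncomputable def g1 (r : ℝ) : ℂ :=
  Complex.exp (Complex.I * r) *
    (-(r : ℂ)⁻¹ ^ 3 - 3 * Complex.I * (r : ℂ)⁻¹ ^ 4 + 3 * (r : ℂ)⁻¹ ^ 5)

/-- `g₁'(r) / r`. -/
noncomputable def g2 (r : ℝ) : ℂ :=
  Complex.exp (Complex.I * r) *
    (-Complex.I * (r : ℂ)⁻¹ ^ 4 + 6 * (r : ℂ)⁻¹ ^ 5 + 15 * Complex.I * (r : ℂ)⁻¹ ^ 6 -
      15 * (r : ℂ)⁻¹ ^ 7)

lemma hasDerivAt_expI (r : ℝ) : HasDerivAt (fun r : ℝ => Complex.exp (Complex.I * r))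
    (Complex.exp (Complex.I * r) * Complex.I) r := by
  have h1 : HasDerivAt (fun r : ℝ => Complex.I * (r : ℂ)) (Complex.I * 1) r :=
    (Complex.ofRealCLM.hasDerivAt).const_mul Complex.I
  simpa using h1.cexp

lemma hasDerivAt_inv' {r : ℝ} (hr : r ≠ 0) : HasDerivAt (fun r : ℝ => (r : ℂ)⁻¹)
    (-(r : ℂ)⁻¹ ^ 2) r := by
  have h0 : HasDerivAt (fun r : ℝ => (r : ℂ)) 1 r := Complex.ofRealCLM.hasDerivAt
  have h1 := h0.fun_inv (by exact_mod_cast hr)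
  refine h1.congr_deriv ?_
  field_simp

lemma hasDerivAt_g0 {r : ℝ} (hr : r ≠ 0) : HasDerivAt g0 (r * g1 r) r := by
  have h1 := (hasDerivAt_expI r).fun_mul ((((hasDerivAt_inv' hr).fun_pow 2).const_mul
    Complex.I).fun_sub ((hasDerivAt_inv' hr).fun_pow 3))
  refine h1.congr_deriv ?_
  unfold g1
  have hr' : (r : ℂ) ≠ 0 := by exact_mod_cast hr
  have hI : Complex.I ^ 2 = -1 := Complex.I_sq
  push_cast
  field_simp
  linear_combination (r : ℂ) ^ 2 * hI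

lemma hasDerivAt_g1 {r : ℝ} (hr : r ≠ 0) : HasDerivAt g1 (r * g2 r) r := by
  have h1 := (hasDerivAt_expI r).fun_mul (((((hasDerivAt_inv' hr).fun_pow 3).fun_neg).fun_sub
    (((hasDerivAt_inv' hr).fun_pow 4).const_mul (3 * Complex.I))).fun_add
    (((hasDerivAt_inv' hr).fun_pow 5).const_mul 3))
  refine h1.congr_deriv ?_
  unfold g2
  have hr' : (r : ℂ) ≠ 0 := by exact_mod_cast hr
  have hI : Complex.I ^ 2 = -1 := Complex.I_sq
  push_cast
  field_simp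
  linear_combination (-3 * (r : ℂ) ^ 2) * hI

lemma g_relation {r : ℝ} (hr : r ≠ 0) : (r : ℂ) ^ 2 * g2 r + 5 * g1 r = -g0 r := by
  unfold g0 g1 g2
  have hr' : (r : ℂ) ≠ 0 := by exact_mod_cast hr
  field_simp
  ring

lemma hasFDerivAt_norm' {x : E3} (hx : x ≠ 0) :
    HasFDerivAt (fun y : E3 => ‖y‖) (‖x‖⁻¹ • innerSL ℝ x) x := by
  have h1 : HasFDerivAt (fun y : E3 => ‖y‖ ^ 2) (2 • innerSL ℝ x) x :=
    (hasStrictFDerivAt_norm_sq x).hasFDerivAt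
  have h2 : ‖x‖ ^ 2 ≠ 0 := by positivity
  have h3 := h1.sqrt h2
  have h4 : (fun y : E3 => √(‖y‖ ^ 2)) = fun y => ‖y‖ := by
    funext y; exact Real.sqrt_sq (norm_nonneg y)
  rw [h4, Real.sqrt_sq (norm_nonneg x)] at h3
  refine h3.congr_fderiv ?_
  ext y
  have : ‖x‖ ≠ 0 := norm_ne_zero_iff.2 hx
  simp
  field_simp

/-- `x ↦ ⟪x, ·⟫` with complex values. -/
noncomputable def ip (x : E3) : E3 →L[ℝ] ℂ := Complex.ofRealCLM.comp (innerSL ℝ x)

/-- The coordinates, with complex values. -/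
noncomputable def pj (i : Fin 3) : E3 →L[ℝ] ℂ :=
  Complex.ofRealCLM.comp (EuclideanSpace.proj i : E3 →L[ℝ] ℝ)

lemma hasFDerivAt_radial {φ : ℝ → ℂ} {ψ : ℂ} {x : E3} (hx : x ≠ 0)
    (h : HasDerivAt φ (‖x‖ * ψ) ‖x‖) : HasFDerivAt (fun y : E3 => φ ‖y‖) (ψ • ip x) x := by
  have h1 := h.hasFDerivAt.comp x (hasFDerivAt_norm' hx)
  refine h1.congr_fderiv ?_
  ext y
  have : (‖x‖ : ℂ) ≠ 0 := by exact_mod_cast norm_ne_zero_iff.2 hx
  simp [ip]
  field_simp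

lemma hasFDerivAt_coord (i : Fin 3) (x : E3) : HasFDerivAt (fun y : E3 => ((y i : ℝ) : ℂ)) (pj i) x :=
  (pj i).hasFDerivAt

/-- The dipole field `∂_z (e^{ir} / r)`. -/
noncomputable def uu (x : E3) : ℂ := (x 2 : ℂ) * g0 ‖x‖

lemma hasFDerivAt_uu {x : E3} (hx : x ≠ 0) :
    HasFDerivAt uu ((x 2 : ℂ) • (g1 ‖x‖ • ip x) + g0 ‖x‖ • pj 2) x :=
  (hasFDerivAt_coord 2 x).fun_mul (hasFDerivAt_radial hx (hasDerivAt_g0 (norm_ne_zero_iff.2 hx)))

lemma fderiv_uu {x : E3} (hx : x ≠ 0) (i : Fin 3) : fderiv ℝ uu x (ev i) =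
    (x 2 : ℂ) * g1 ‖x‖ * (x i : ℂ) + g0 ‖x‖ * (if i = 2 then 1 else 0) := by
  rw [(hasFDerivAt_uu hx).fderiv]
  simp [ip, pj, ev, EuclideanSpace.inner_single_right, PiLp.single_apply, eq_comm]
  split_ifs <;> simp <;> ring

lemma ip_ev (x : E3) (i : Fin 3) : ip x (ev i) = (x i : ℂ) := by
  simp [ip, ev, EuclideanSpace.inner_single_right]

lemma pj_ev (i j : Fin 3) : pj i (ev j) = if i = j then 1 else 0 := by
  simp [pj, ev, PiLp.single_apply]
  split_ifs <;> simp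

lemma fderiv_fderiv_uu {x : E3} (hx : x ≠ 0) (i : Fin 3) :
    fderiv ℝ (fun y => fderiv ℝ uu y (ev i)) x (ev i) =
    (x 2 : ℂ) * g2 ‖x‖ * (x i : ℂ) ^ 2 + (x 2 : ℂ) * g1 ‖x‖ +
      2 * (g1 ‖x‖ * (x i : ℂ) * (if i = 2 then 1 else 0)) := by
  have hr : ‖x‖ ≠ 0 := norm_ne_zero_iff.2 hx
  have h1 : (fun y => fderiv ℝ uu y (ev i)) =ᶠ[𝓝 x] fun y =>
      (y 2 : ℂ) * g1 ‖y‖ * (y i : ℂ) + g0 ‖y‖ * (if i = 2 then 1 else 0) := by
    filter_upwards [isOpen_compl_singleton.mem_nhds hx] with y hy using fderiv_uu hy i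
  have h2 := (((hasFDerivAt_coord 2 x).fun_mul (hasFDerivAt_radial hx
    (hasDerivAt_g1 hr))).fun_mul (hasFDerivAt_coord i x)).fun_add
    ((hasFDerivAt_radial hx (hasDerivAt_g0 hr)).mul_const (if i = 2 then 1 else 0))
  rw [h1.fderiv_eq, h2.fderiv]
  simp only [_root_.add_apply, _root_.smul_apply, ip_ev, pj_ev, smul_eq_mul]
  by_cases h : i = 2
  · subst h
    simp only [if_true]
    ring
  · have h' : ¬ (2 : Fin 3) = i := fun h3 => h h3.symm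
    simp only [if_neg h, if_neg h', if_true]
    ring

lemma helmholtz_uu {x : E3} (hx : x ≠ 0) : lap uu x + uu x = 0 := by
  have hr : ‖x‖ ≠ 0 := norm_ne_zero_iff.2 hx
  have hn : (‖x‖ : ℂ) ^ 2 = (x 0 : ℂ) ^ 2 + (x 1 : ℂ) ^ 2 + (x 2 : ℂ) ^ 2 := by
    have : ‖x‖ ^ 2 = x 0 ^ 2 + x 1 ^ 2 + x 2 ^ 2 := by
      rw [EuclideanSpace.norm_sq_eq, Fin.sum_univ_three]
      simp
    exact_mod_cast congrArg (fun t : ℝ => (t : ℂ)) this
  have hg := g_relation hr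
  rw [hn] at hg
  rw [lap, Fin.sum_univ_three, fderiv_fderiv_uu hx, fderiv_fderiv_uu hx, fderiv_fderiv_uu hx, uu]
  simp only [show ((0 : Fin 3) = 2) = False by decide, show ((1 : Fin 3) = 2) = False by decide,
    if_false, if_true]
  linear_combination (x 2 : ℂ) * hg

/-- The density of the dipole field. -/
lemma density_uu {x : E3} (hx : x ≠ 0) : density uu x =
    (x 2 ^ 2 * (‖x‖ ^ 2 - 4) - (x 0 ^ 2 + x 1 ^ 2) * (‖x‖ ^ 2 + 1)) / ‖x‖ ^ 8 := by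
  have hr : ‖x‖ ≠ 0 := norm_ne_zero_iff.2 hx
  have hn : ‖x‖ ^ 2 = x 0 ^ 2 + x 1 ^ 2 + x 2 ^ 2 := by
    rw [EuclideanSpace.norm_sq_eq, Fin.sum_univ_three]
    simp
  have hexp : ∀ w : ℂ, ‖Complex.exp (Complex.I * ‖x‖) * w‖ ^ 2 = w.re ^ 2 + w.im ^ 2 := by
    intro w
    rw [norm_mul, mul_comm Complex.I, Complex.norm_exp_ofReal_mul_I, one_mul, Complex.sq_norm,
      Complex.normSq_apply]
    ring
  set r := ‖x‖ with hrdef
  have e0 : g0 r = Complex.exp (Complex.I * r) * (⟨-r⁻¹ ^ 3, r⁻¹ ^ 2⟩ : ℂ) := by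
    unfold g0
    congr 1
    apply Complex.ext <;> simp [← Complex.ofReal_inv, ← Complex.ofReal_pow]
  have e1 : g1 r = Complex.exp (Complex.I * r) *
      (⟨-r⁻¹ ^ 3 + 3 * r⁻¹ ^ 5, -3 * r⁻¹ ^ 4⟩ : ℂ) := by
    unfold g1
    congr 1
    apply Complex.ext <;> simp [← Complex.ofReal_inv, ← Complex.ofReal_pow]
  have n0 : ‖uu x‖ ^ 2 = (x 2) ^ 2 * (r⁻¹ ^ 6 + r⁻¹ ^ 4) := by
    rw [uu, ← hrdef, e0]
    have : (x 2 : ℂ) * (Complex.exp (Complex.I * r) * (⟨-r⁻¹ ^ 3, r⁻¹ ^ 2⟩ : ℂ)) =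
      Complex.exp (Complex.I * r) * ((x 2 : ℂ) * (⟨-r⁻¹ ^ 3, r⁻¹ ^ 2⟩ : ℂ)) := by ring
    rw [this, hexp]
    simp
    ring
  have n1 : ∀ i : Fin 3, ‖fderiv ℝ uu x (ev i)‖ ^ 2 =
      (x 2 * x i * (-r⁻¹ ^ 3 + 3 * r⁻¹ ^ 5) + (if i = 2 then -r⁻¹ ^ 3 else 0)) ^ 2 +
      (x 2 * x i * (-3 * r⁻¹ ^ 4) + (if i = 2 then r⁻¹ ^ 2 else 0)) ^ 2 := by
    intro i
    rw [fderiv_uu hx, ← hrdef, e0, e1]
    have : (x 2 : ℂ) * (Complex.exp (Complex.I * r) *
        (⟨-r⁻¹ ^ 3 + 3 * r⁻¹ ^ 5, -3 * r⁻¹ ^ 4⟩ : ℂ)) * (x i : ℂ) +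
        Complex.exp (Complex.I * r) * (⟨-r⁻¹ ^ 3, r⁻¹ ^ 2⟩ : ℂ) * (if i = 2 then 1 else 0) =
      Complex.exp (Complex.I * r) * (((x 2 * x i : ℝ) : ℂ) *
        (⟨-r⁻¹ ^ 3 + 3 * r⁻¹ ^ 5, -3 * r⁻¹ ^ 4⟩ : ℂ) +
        (⟨-r⁻¹ ^ 3, r⁻¹ ^ 2⟩ : ℂ) * (if i = 2 then 1 else 0)) := by push_cast; ring
    rw [this, hexp]
    split_ifs <;> simp
  rw [density, n0, Fin.sum_univ_three, n1, n1, n1]
  simp only [show ((0 : Fin 3) = 2) = False by decide, show ((1 : Fin 3) = 2) = False by decide,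
    if_false, if_true]
  have hx0 : x 0 ^ 2 = r ^ 2 - x 1 ^ 2 - x 2 ^ 2 := by linarith
  field_simp
  ring_nf
  have h4 : x 0 ^ 2 = r ^ 2 - x 1 ^ 2 - x 2 ^ 2 := by linarith
  simp only [h4]
  ring

/-! ### The regions -/

/-- The defining function of the region. -/
noncomputable def FF (κ : ℝ) (x : E3) : ℝ :=
  x 2 ^ 2 - (x 0 ^ 2 + x 1 ^ 2) + κ * (‖x‖ ^ 2) ^ 2 - 9

/-- The region. -/
def VV (κ : ℝ) : Set E3 := {x | FF κ x ≤ 0}

lemma norm_sq_eq (x : E3) : ‖x‖ ^ 2 = x 0 ^ 2 + x 1 ^ 2 + x 2 ^ 2 := by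
  rw [EuclideanSpace.norm_sq_eq, Fin.sum_univ_three]
  simp

lemma contDiff_coord (i : Fin 3) : ContDiff ℝ ∞ fun x : E3 => x i :=
  (EuclideanSpace.proj i : E3 →L[ℝ] ℝ).contDiff

lemma contDiff_FF (κ : ℝ) : ContDiff ℝ ∞ (FF κ) := by
  unfold FF
  have h := contDiff_coord
  have hn : ContDiff ℝ ∞ fun x : E3 => ‖x‖ ^ 2 := contDiff_norm_sq ℝ
  exact ((((h 2).pow 2).sub (((h 0).pow 2).add ((h 1).pow 2))).add
    (contDiff_const.mul (hn.pow 2))).sub contDiff_const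

lemma FF_smul (κ s : ℝ) (x : E3) : FF κ (s • x) =
    s ^ 2 * (x 2 ^ 2 - (x 0 ^ 2 + x 1 ^ 2)) + κ * s ^ 4 * (‖x‖ ^ 2) ^ 2 - 9 := by
  unfold FF
  rw [norm_smul, mul_pow, Real.norm_eq_abs, sq_abs]
  simp
  ring

lemma isClosed_VV (κ : ℝ) : IsClosed (VV κ) :=
  isClosed_le (contDiff_FF κ).continuous continuous_const

lemma isCompact_VV {κ : ℝ} (hκ : 0 < κ) : IsCompact (VV κ) := by
  refine isCompact_of_isClosed_isBounded (isClosed_VV κ) ?_
  refine (isBounded_closedBall (x := (0 : E3)) (r := √(κ⁻¹ + 9))).subset ?_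
  intro x hx
  rw [mem_closedBall_zero_iff]
  apply Real.le_sqrt_of_sq_le
  by_contra h
  push Not at h
  have hx' : FF κ x ≤ 0 := hx
  unfold FF at hx'
  have hn := norm_sq_eq x
  have h1 : 1 + 9 * κ < κ * ‖x‖ ^ 2 := by
    have := mul_lt_mul_of_pos_left h hκ
    rw [mul_add, mul_inv_cancel₀ hκ.ne'] at this
    linarith
  have h2 : 0 ≤ x 2 ^ 2 := sq_nonneg _
  have h3 : 0 < ‖x‖ ^ 2 := lt_of_le_of_lt (by positivity) h
  have h4 : (1 + 9 * κ) * ‖x‖ ^ 2 < κ * ‖x‖ ^ 2 * ‖x‖ ^ 2 := by gcongr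
  have h5 : 1 < κ * ‖x‖ ^ 2 := by linarith
  nlinarith

lemma zero_mem_interior (κ : ℝ) : (0 : E3) ∈ interior (VV κ) := by
  have hopen : IsOpen {x : E3 | FF κ x < 0} :=
    isOpen_lt (contDiff_FF κ).continuous continuous_const
  have hsub : {x : E3 | FF κ x < 0} ⊆ VV κ := fun x (hx : FF κ x < 0) =>
    (hx.le : FF κ x ≤ 0)
  refine interior_maximal hsub hopen ?_
  simp [FF]

lemma starConvex_VV {κ : ℝ} (hκ : 0 < κ) : StarConvex ℝ 0 (VV κ) := by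
  intro y hy a b ha hb hab
  have hy' : FF κ y ≤ 0 := hy
  rw [smul_zero, zero_add]
  show FF κ (b • y) ≤ 0
  rw [FF_smul]
  unfold FF at hy'
  have hb1 : b ≤ 1 := by linarith
  have h1 : b ^ 4 ≤ b ^ 2 := pow_le_pow_of_le_one hb hb1 (by norm_num)
  have h2 : b ^ 2 ≤ 1 := pow_le_one₀ hb hb1
  have h3 : κ * b ^ 4 * (‖y‖ ^ 2) ^ 2 ≤ κ * b ^ 2 * (‖y‖ ^ 2) ^ 2 := by gcongr
  have h4 : b ^ 2 * (y 2 ^ 2 - (y 0 ^ 2 + y 1 ^ 2) + κ * (‖y‖ ^ 2) ^ 2) ≤ b ^ 2 * 9 := by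
    gcongr
    linarith
  nlinarith

lemma frontier_VV {κ : ℝ} (hκ : 0 < κ) : frontier (VV κ) = {x | FF κ x = 0} := by
  have hc := (contDiff_FF κ).continuous
  apply Subset.antisymm
  · exact frontier_le_subset_eq hc continuous_const
  · intro x hx
    have hx' : FF κ x = 0 := hx
    have hmem : x ∈ VV κ := hx'.le
    rw [frontier_eq_closure_inter_closure]
    refine ⟨subset_closure hmem, ?_⟩
    have h1 : Tendsto (fun s : ℝ => s • x) (𝓝[>] 1) (𝓝 x) := by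
      have : Tendsto (fun s : ℝ => s • x) (𝓝 1) (𝓝 ((1 : ℝ) • x)) :=
        (continuous_id.smul continuous_const).tendsto 1
      rw [one_smul] at this
      exact this.mono_left nhdsWithin_le_nhds
    refine mem_closure_of_tendsto h1 ?_
    filter_upwards [self_mem_nhdsWithin] with s hs
    have hs1 : 1 < s := hs
    show ¬ FF κ (s • x) ≤ 0
    rw [FF_smul, not_le]
    unfold FF at hx'
    have h2 : 1 < s ^ 2 := one_lt_pow₀ hs1 two_ne_zero
    have h3 : x 2 ^ 2 - (x 0 ^ 2 + x 1 ^ 2) = 9 - κ * (‖x‖ ^ 2) ^ 2 := by linarith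
    rw [h3]
    have h4 : 0 ≤ κ * (‖x‖ ^ 2) ^ 2 := by positivity
    have h5 : s ^ 2 * (9 - κ * (‖x‖ ^ 2) ^ 2) + κ * s ^ 4 * (‖x‖ ^ 2) ^ 2 - 9 =
        9 * (s ^ 2 - 1) + (κ * (‖x‖ ^ 2) ^ 2) * (s ^ 2 * (s ^ 2 - 1)) := by ring
    rw [h5]
    have h6 : 0 < s ^ 2 - 1 := by linarith
    positivity

/-- The derivative of the defining function. -/
lemma fderiv_FF (κ : ℝ) (x h : E3) : fderiv ℝ (FF κ) x h =
    2 * (x 2 * h 2 - x 0 * h 0 - x 1 * h 1) + 4 * κ * ‖x‖ ^ 2 * ⟪x, h⟫ := by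
  have hc : ∀ i : Fin 3, HasFDerivAt (fun y : E3 => y i) (EuclideanSpace.proj i : E3 →L[ℝ] ℝ) x :=
    fun i => (EuclideanSpace.proj i : E3 →L[ℝ] ℝ).hasFDerivAt
  have hn : HasFDerivAt (fun y : E3 => ‖y‖ ^ 2) (2 • innerSL ℝ x) x :=
    (hasStrictFDerivAt_norm_sq x).hasFDerivAt
  have h1 := (((((hc 2).pow 2).sub (((hc 0).pow 2).add ((hc 1).pow 2))).add
    ((hn.pow 2).const_mul κ)).sub_const 9)
  have h2 : HasFDerivAt (FF κ) _ x := h1
  rw [h2.fderiv]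
  simp
  ring

lemma grad_FF {κ : ℝ} (hκ : 0 < κ) {x : E3} (hx : FF κ x = 0) : gradient (FF κ) x ≠ 0 := by
  intro h0
  have h1 : fderiv ℝ (FF κ) x = 0 := by
    unfold gradient at h0
    exact (LinearIsometryEquiv.map_eq_zero_iff _).1 h0
  have h2 := fderiv_FF κ x x
  rw [h1, real_inner_self_eq_norm_sq] at h2
  unfold FF at hx
  have h3 : 0 ≤ κ * (‖x‖ ^ 2) ^ 2 := by positivity
  have h4 : (0 : E3 →L[ℝ] ℝ) x = 0 := rfl
  rw [h4] at h2
  nlinarith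

theorem smoothRegion {κ : ℝ} (hκ : 0 < κ) : SmoothRegion (VV κ) (FF κ) where
  isCompact := isCompact_VV hκ
  interior_nonempty := zero_mem_interior κ
  starConvex := starConvex_VV hκ
  smooth := contDiff_FF κ
  eq := rfl
  frontier_eq := frontier_VV hκ
  grad := fun _ hx => grad_FF hκ hx

lemma contDiffOn_uu : ContDiffOn ℝ ∞ uu {0}ᶜ := by
  intro x hx
  have hx' : x ≠ 0 := hx
  have hr : (‖x‖ : ℂ) ≠ 0 := by exact_mod_cast norm_ne_zero_iff.2 hx'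
  have hn : ContDiffAt ℝ ∞ (fun y : E3 => (‖y‖ : ℂ)) x :=
    Complex.ofRealCLM.contDiff.contDiffAt.comp x (contDiffAt_norm ℝ hx')
  have h2 : ContDiffAt ℝ ∞ (fun y : E3 => (y 2 : ℂ)) x := (pj 2).contDiff.contDiffAt
  have hi := hn.inv hr
  have h3 : ContDiffAt ℝ ∞ (fun y : E3 => Complex.exp (Complex.I * (‖y‖ : ℂ))) x :=
    (contDiffAt_const.mul hn).cexp
  exact (h2.mul (h3.mul ((contDiffAt_const.mul (hi.pow 2)).sub (hi.pow 3)))).contDiffWithinAt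

lemma closure_compl_subset (κ : ℝ) : closure (VV κ)ᶜ ⊆ {0}ᶜ := by
  rw [closure_compl]
  intro x hx hx0
  rw [mem_singleton_iff] at hx0
  rw [hx0] at hx
  exact hx (zero_mem_interior κ)

lemma abs_coord_le (x : E3) (i : Fin 3) : |x i| ≤ ‖x‖ := by
  have := EuclideanSpace.norm_eq x
  rw [← Real.norm_eq_abs]
  exact PiLp.norm_apply_le x i

theorem radiatingField (κ : ℝ) : RadiatingField (VV κ) uu where
  smooth := ⟨{0}ᶜ, isOpen_compl_singleton, closure_compl_subset κ, contDiffOn_uu⟩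
  helmholtz := fun x hx => helmholtz_uu (fun h => hx (by
    rw [h]; exact interior_subset (zero_mem_interior κ)))
  radiation := by
    refine ⟨fun y => Complex.I * (y 2 : ℂ), ?_, ?_⟩
    · have h2 : ContDiff ℝ ∞ (fun y : E3 => (y 2 : ℂ)) := (pj 2).contDiff
      exact (contDiff_const.mul h2).contDiffOn
    · have h1 : Tendsto (fun x : E3 => ‖x‖⁻¹) (cobounded E3) (𝓝 0) :=
        tendsto_inv_atTop_zero.comp tendsto_norm_cobounded_atTop
      have h0 : ∀ᶠ x : E3 in cobounded E3, x ≠ 0 := by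
        have := tendsto_norm_cobounded_atTop (E := E3) |>.eventually_gt_atTop 0
        filter_upwards [this] with x hx
        exact norm_pos_iff.1 hx
      refine squeeze_zero' (Eventually.of_forall fun x => by positivity) ?_ h1
      filter_upwards [h0] with x hx
      have hr : 0 < ‖x‖ := norm_pos_iff.2 hx
      have hr' : (‖x‖ : ℂ) ≠ 0 := by exact_mod_cast hr.ne'
      have e : uu x - Complex.exp (Complex.I * ‖x‖) / ‖x‖ *
          (Complex.I * (((‖x‖⁻¹ • x : E3) 2 : ℝ) : ℂ)) =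
          Complex.exp (Complex.I * ‖x‖) * (-((x 2 : ℝ) : ℂ) * (‖x‖ : ℂ)⁻¹ ^ 3) := by
        unfold uu g0
        simp only [PiLp.smul_apply, smul_eq_mul]
        push_cast
        field_simp
        ring
      rw [e, norm_mul, mul_comm Complex.I, Complex.norm_exp_ofReal_mul_I, one_mul, norm_mul,
        norm_neg, norm_pow, norm_inv, Complex.norm_real, Complex.norm_real, norm_norm,
        Real.norm_eq_abs]
      have h3 := abs_coord_le x 2
      calc ‖x‖ * (|x 2| * ‖x‖⁻¹ ^ 3) ≤ ‖x‖ * (‖x‖ * ‖x‖⁻¹ ^ 3) := by gcongr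
        _ = ‖x‖⁻¹ := by field_simp

/-! ### The integral -/

/-- The density, as an explicit function. -/
noncomputable def hh (x : E3) : ℝ :=
  (x 2 ^ 2 * (‖x‖ ^ 2 - 4) - (x 0 ^ 2 + x 1 ^ 2) * (‖x‖ ^ 2 + 1)) / ‖x‖ ^ 8

lemma measurable_hh : Measurable hh := by
  unfold hh
  have h : ∀ i : Fin 3, Measurable fun x : E3 => x i := fun i => (contDiff_coord i).continuous.measurable
  have h0 := h 0
  have h1 := h 1
  have h2 := h 2
  fun_prop

lemma norm_sq_gt {κ : ℝ} (hκ : 0 < κ) (hκ1 : κ ≤ 1 / 9) {x : E3} (hx : 0 < FF κ x) :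
    4 < ‖x‖ ^ 2 := by
  by_contra h
  push Not at h
  have hn := norm_sq_eq x
  unfold FF at hx
  have h1 : (‖x‖ ^ 2) ^ 2 ≤ 16 := by nlinarith [sq_nonneg ‖x‖]
  have h2 : κ * (‖x‖ ^ 2) ^ 2 ≤ 1 / 9 * 16 := by gcongr
  nlinarith [sq_nonneg (x 0), sq_nonneg (x 1)]

lemma hh_bound {x : E3} (hx : 4 ≤ ‖x‖ ^ 2) : ‖hh x‖ ≤ 11 * (1 + ‖x‖) ^ (-(4 : ℝ)) := by
  have hn := norm_sq_eq x
  have hr : 2 ≤ ‖x‖ := by nlinarith [norm_nonneg x]
  have hr0 : 0 < ‖x‖ := by linarith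
  have h1 : |x 2 ^ 2 * (‖x‖ ^ 2 - 4) - (x 0 ^ 2 + x 1 ^ 2) * (‖x‖ ^ 2 + 1)| ≤ 2 * ‖x‖ ^ 4 := by
    have a0 := sq_nonneg (x 0)
    have a1 := sq_nonneg (x 1)
    have a2 := sq_nonneg (x 2)
    have b1 : x 2 ^ 2 * (‖x‖ ^ 2 - 4) ≤ ‖x‖ ^ 2 * ‖x‖ ^ 2 := by
      apply mul_le_mul <;> nlinarith
    have b2 : (x 0 ^ 2 + x 1 ^ 2) * (‖x‖ ^ 2 + 1) ≤ ‖x‖ ^ 2 * (2 * ‖x‖ ^ 2) := by
      apply mul_le_mul <;> nlinarith
    have b3 : 0 ≤ x 2 ^ 2 * (‖x‖ ^ 2 - 4) := mul_nonneg a2 (by linarith)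
    have b4 : 0 ≤ (x 0 ^ 2 + x 1 ^ 2) * (‖x‖ ^ 2 + 1) := by positivity
    rw [abs_le]
    constructor <;> nlinarith
  have h2 : ‖hh x‖ ≤ 2 / ‖x‖ ^ 4 := by
    rw [hh, norm_div, Real.norm_eq_abs, Real.norm_eq_abs, abs_of_pos (by positivity : 0 < ‖x‖ ^ 8),
      div_le_div_iff₀ (by positivity) (by positivity)]
    calc _ ≤ 2 * ‖x‖ ^ 4 * ‖x‖ ^ 4 := by gcongr
      _ = 2 * ‖x‖ ^ 8 := by ring
  have h3 : (1 + ‖x‖) ^ (-(4 : ℝ)) = 1 / (1 + ‖x‖) ^ 4 := by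
    rw [Real.rpow_neg (by positivity)]
    norm_num
  rw [h3]
  refine h2.trans ?_
  rw [mul_one_div, div_le_div_iff₀ (by positivity) (by positivity)]
  have h4 : (1 + ‖x‖) ^ 4 ≤ (3 / 2 * ‖x‖) ^ 4 := by
    gcongr
    linarith
  have h5 : 0 < ‖x‖ ^ 4 := by positivity
  nlinarith

lemma integrable_bound : Integrable (fun x : E3 => 11 * (1 + ‖x‖) ^ (-(4 : ℝ))) := by
  refine Integrable.const_mul ?_ 11
  apply integrable_one_add_norm
  rw [finrank_euclideanSpace, Fintype.card_fin]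
  norm_num

lemma integrableOn_hh {S : Set E3} (hS : MeasurableSet S) (h : ∀ x ∈ S, 4 ≤ ‖x‖ ^ 2) :
    IntegrableOn hh S := by
  refine Integrable.mono' integrable_bound.integrableOn measurable_hh.aestronglyMeasurable ?_
  filter_upwards [ae_restrict_mem hS] with x hx using hh_bound (h x hx)

/-- The limit set. -/
def HH : Set E3 := {x | 9 ≤ x 2 ^ 2 - (x 0 ^ 2 + x 1 ^ 2)}

lemma continuous_quad : Continuous fun x : E3 => x 2 ^ 2 - (x 0 ^ 2 + x 1 ^ 2) := by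
  have h := fun i => (contDiff_coord i).continuous
  exact ((h 2).pow 2).sub (((h 0).pow 2).add ((h 1).pow 2))

lemma measurableSet_HH : MeasurableSet HH :=
  (isClosed_le continuous_const continuous_quad).measurableSet

lemma HH_norm {x : E3} (hx : x ∈ HH) : 9 ≤ ‖x‖ ^ 2 := by
  have hx' : 9 ≤ x 2 ^ 2 - (x 0 ^ 2 + x 1 ^ 2) := hx
  rw [norm_sq_eq]
  nlinarith [sq_nonneg (x 0), sq_nonneg (x 1)]

lemma hh_pos {x : E3} (hx : x ∈ HH) : 0 < hh x := by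
  have h9 := HH_norm hx
  have hx' : 9 ≤ x 2 ^ 2 - (x 0 ^ 2 + x 1 ^ 2) := hx
  have hn := norm_sq_eq x
  unfold hh
  have h1 : 0 < ‖x‖ ^ 8 := by
    have : 0 < ‖x‖ := by
      rcases (norm_nonneg x).eq_or_lt with h | h
      · rw [← h] at h9; norm_num at h9
      · exact h
    positivity
  apply div_pos _ h1
  have h2 : x 2 ^ 2 * (‖x‖ ^ 2 - 4) - (x 0 ^ 2 + x 1 ^ 2) * (‖x‖ ^ 2 + 1) =
      ‖x‖ ^ 2 * (x 2 ^ 2 - (x 0 ^ 2 + x 1 ^ 2)) - 4 * x 2 ^ 2 - (x 0 ^ 2 + x 1 ^ 2) := by ring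
  rw [h2]
  nlinarith [sq_nonneg (x 0), sq_nonneg (x 1), sq_nonneg (x 2)]

lemma integral_HH_pos : 0 < ∫ x in HH, hh x := by
  have hint : IntegrableOn hh HH := integrableOn_hh measurableSet_HH fun x hx => by
    linarith [HH_norm hx]
  rw [setIntegral_pos_iff_support_of_nonneg_ae _ hint]
  · have hopen : IsOpen {x : E3 | 9 < x 2 ^ 2 - (x 0 ^ 2 + x 1 ^ 2)} :=
      isOpen_lt continuous_const continuous_quad
    have hne : {x : E3 | 9 < x 2 ^ 2 - (x 0 ^ 2 + x 1 ^ 2)}.Nonempty := by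
      refine ⟨(4 : ℝ) • ev 2, ?_⟩
      simp [ev]
      norm_num
    refine lt_of_lt_of_le (hopen.measure_pos volume hne) (measure_mono ?_)
    intro x hx
    have hx1 : 9 < x 2 ^ 2 - (x 0 ^ 2 + x 1 ^ 2) := hx
    have hx' : x ∈ HH := (hx1.le : 9 ≤ x 2 ^ 2 - (x 0 ^ 2 + x 1 ^ 2))
    exact ⟨(hh_pos hx').ne', hx'⟩
  · filter_upwards [ae_restrict_mem measurableSet_HH] with x hx using (hh_pos hx).le

lemma tendsto_integral {κ : ℕ → ℝ} (h0 : ∀ n, 0 < κ n) (h1 : ∀ n, κ n ≤ 1 / 9)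
    (hlim : Tendsto κ atTop (𝓝 0)) :
    Tendsto (fun n => ∫ x in (VV (κ n))ᶜ, hh x) atTop (𝓝 (∫ x in HH, hh x)) := by
  have hm : ∀ n, MeasurableSet (VV (κ n))ᶜ := fun n => (isClosed_VV _).measurableSet.compl
  simp_rw [← integral_indicator (hm _)]
  rw [← integral_indicator measurableSet_HH]
  refine tendsto_integral_of_dominated_convergence (fun x : E3 => 11 * (1 + ‖x‖) ^ (-(4 : ℝ)))
    (fun n => (measurable_hh.indicator (hm n)).aestronglyMeasurable) integrable_bound ?_ ?_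
  · intro n
    refine Eventually.of_forall fun x => ?_
    by_cases hx : x ∈ (VV (κ n))ᶜ
    · rw [indicator_of_mem hx]
      have hx' : 0 < FF (κ n) x := not_le.1 hx
      exact hh_bound (norm_sq_gt (h0 n) (h1 n) hx').le
    · rw [indicator_of_notMem hx, norm_zero]
      positivity
  · refine Eventually.of_forall fun x => ?_
    by_cases hx : x ∈ HH
    · have hx' : 9 ≤ x 2 ^ 2 - (x 0 ^ 2 + x 1 ^ 2) := hx
      have h9 := HH_norm hx
      have : ∀ n, x ∈ (VV (κ n))ᶜ := by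
        intro n
        show ¬ FF (κ n) x ≤ 0
        rw [not_le]
        unfold FF
        have : 0 < κ n * (‖x‖ ^ 2) ^ 2 := by
          have := h0 n
          positivity
        linarith
      rw [indicator_of_mem hx]
      refine tendsto_const_nhds.congr fun n => ?_
      rw [indicator_of_mem (this n)]
    · have hx' : x 2 ^ 2 - (x 0 ^ 2 + x 1 ^ 2) < 9 := not_le.1 hx
      rw [indicator_of_notMem hx]
      have h2 : Tendsto (fun n => κ n * (‖x‖ ^ 2) ^ 2) atTop (𝓝 (0 * (‖x‖ ^ 2) ^ 2)) :=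
        hlim.mul_const _
      rw [zero_mul] at h2
      have h3 : ∀ᶠ n in atTop, κ n * (‖x‖ ^ 2) ^ 2 < 9 - (x 2 ^ 2 - (x 0 ^ 2 + x 1 ^ 2)) :=
        h2.eventually (gt_mem_nhds (by linarith))
      refine tendsto_const_nhds.congr' ?_
      filter_upwards [h3] with n hn
      rw [indicator_of_notMem]
      show ¬ ¬ FF (κ n) x ≤ 0
      rw [not_not]
      unfold FF
      linarith

lemma setIntegral_density {κ : ℝ} :
    ∫ x in (VV κ)ᶜ, density uu x = ∫ x in (VV κ)ᶜ, hh x := by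
  refine setIntegral_congr_fun (isClosed_VV _).measurableSet.compl fun x hx => ?_
  have hx0 : x ≠ 0 := by
    rintro rfl
    exact hx (interior_subset (zero_mem_interior κ))
  exact density_uu hx0

lemma integrableOn_density {κ : ℝ} (hκ : 0 < κ) (hκ1 : κ ≤ 1 / 9) :
    IntegrableOn (density uu) (VV κ)ᶜ := by
  have hm : MeasurableSet (VV κ)ᶜ := (isClosed_VV _).measurableSet.compl
  refine (integrableOn_hh hm fun x hx => (norm_sq_gt hκ hκ1 (not_le.1 hx)).le).congr_fun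
    (fun x hx => ?_) hm
  have hx0 : x ≠ 0 := by
    rintro rfl
    exact hx (interior_subset (zero_mem_interior κ))
  exact (density_uu hx0).symm

/-! ### Nonzero boundary data -/

lemma boundary_data {s : ℝ} (hs0 : 0 < s) {κ : ℝ} (hκ : 0 < κ) (hF : s + κ * s ^ 2 = 9) :
    ∃ p : E3, p ∈ frontier (VV κ) ∧ uu p ≠ 0 ∧ fderiv ℝ uu p (gradient (FF κ) p) ≠ 0 := by
  set z := √s with hz
  have hz0 : 0 < z := Real.sqrt_pos.2 hs0
  have hzs : z ^ 2 = s := Real.sq_sqrt hs0.le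
  have hp0 : (z • ev 2 : E3) 0 = 0 := by simp [ev]
  have hp1 : (z • ev 2 : E3) 1 = 0 := by simp [ev]
  have hp2 : (z • ev 2 : E3) 2 = z := by simp [ev]
  have hnp : ‖(z • ev 2 : E3)‖ = z := by
    rw [norm_smul, Real.norm_eq_abs, abs_of_pos hz0]; simp [ev]
  have hpne : (z • ev 2 : E3) ≠ 0 := by
    rw [← norm_ne_zero_iff, hnp]; exact hz0.ne'
  have hz' : (z : ℂ) ≠ 0 := by exact_mod_cast hz0.ne'
  have hexp : Complex.exp (Complex.I * z) ≠ 0 := Complex.exp_ne_zero _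
  refine ⟨z • ev 2, ?_, ?_, ?_⟩
  · rw [frontier_VV hκ]
    show FF κ (z • ev 2) = 0
    unfold FF
    rw [hp0, hp1, hp2, hnp, hzs]
    linarith
  · rw [uu, hp2, hnp, g0]
    refine mul_ne_zero hz' (mul_ne_zero hexp ?_)
    intro h
    have := congrArg Complex.im h
    simp [← Complex.ofReal_inv, ← Complex.ofReal_pow] at this
    exact hz0.ne' this
  · have hg : gradient (FF κ) (z • ev 2) = (2 * z + 4 * κ * z ^ 3) • ev 2 := by
      apply HasGradientAt.gradient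
      rw [hasGradientAt_iff_hasFDerivAt]
      have hd : HasFDerivAt (FF κ) (fderiv ℝ (FF κ) (z • ev 2)) (z • ev 2) :=
        (((contDiff_FF κ).differentiable (by simp)) _).hasFDerivAt
      refine hd.congr_fderiv ?_
      ext y
      rw [fderiv_FF, hp0, hp1, hp2, hnp, inner_smul_left]
      simp [ev, EuclideanSpace.inner_single_left]
      ring
    rw [hg, map_smul, fderiv_uu hpne, hp2, hnp]
    have hc : (2 * z + 4 * κ * z ^ 3 : ℝ) ≠ 0 := by positivity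
    refine smul_ne_zero hc ?_
    have e : (z : ℂ) * g1 z * (z : ℂ) + g0 z * (if (2 : Fin 3) = 2 then 1 else 0) =
        Complex.exp (Complex.I * z) *
          (-(z : ℂ)⁻¹ - 2 * Complex.I * (z : ℂ)⁻¹ ^ 2 + 2 * (z : ℂ)⁻¹ ^ 3) := by
      unfold g0 g1
      simp only [if_true]
      field_simp
      ring
    rw [e]
    refine mul_ne_zero hexp ?_
    intro h
    have := congrArg Complex.im h
    simp [← Complex.ofReal_inv, ← Complex.ofReal_pow] at this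
    exact hz0.ne' this

/-- **Answer to Q1: no.** In `ℝ³` there are a compact region `V` (star-shaped, with smooth boundary)
and a radiating solution `u` of `Δu + u = 0` outside `V`, smooth up to the boundary, whose Dirichlet
and Neumann data on the boundary are both not identically zero, such that the integrated
Lagrangian `L` converges absolutely and is positive. -/
theorem result : ∃ (V : Set E3) (F : E3 → ℝ) (u : E3 → ℂ), SmoothRegion V F ∧ RadiatingField V u ∧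
    (∃ x ∈ frontier V, u x ≠ 0) ∧ (∃ x ∈ frontier V, fderiv ℝ u x (gradient F x) ≠ 0) ∧
    IntegrableOn (density u) Vᶜ ∧ 0 < lagrangian V u := by
  set s : ℕ → ℝ := fun n => 9 - 1 / (n + 1) with hs
  set κ : ℕ → ℝ := fun n => (9 - s n) / s n ^ 2 with hκ
  have hs8 : ∀ n, 8 ≤ s n := by
    intro n
    have : (1 : ℝ) / (n + 1) ≤ 1 := by
      rw [div_le_one (by positivity)]
      have : (0 : ℝ) ≤ n := by positivity
      linarith
    simp only [hs]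
    linarith
  have hs9 : ∀ n, s n < 9 := by
    intro n
    have : (0 : ℝ) < 1 / (n + 1) := by positivity
    simp only [hs]
    linarith
  have hκ0 : ∀ n, 0 < κ n := by
    intro n
    have h1 := hs8 n
    have h2 := hs9 n
    have h3 : 0 < 9 - s n := by linarith
    have h4 : 0 < s n := by linarith
    simp only [hκ]
    positivity
  have hκ1 : ∀ n, κ n ≤ 1 / 9 := by
    intro n
    have h1 := hs8 n
    have h2 := hs9 n
    simp only [hκ]
    rw [div_le_div_iff₀ (by positivity) (by norm_num)]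
    nlinarith
  have hslim : Tendsto s atTop (𝓝 9) := by
    have := (tendsto_one_div_add_atTop_nhds_zero_nat (𝕜 := ℝ)).const_sub 9
    rw [sub_zero] at this
    exact this
  have hκlim : Tendsto κ atTop (𝓝 0) := by
    have := (hslim.const_sub 9).div (hslim.pow 2) (by norm_num)
    rw [sub_self, zero_div] at this
    exact this
  have hlim := tendsto_integral hκ0 hκ1 hκlim
  obtain ⟨n, hn⟩ := (hlim.eventually (lt_mem_nhds integral_HH_pos)).exists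
  have hF : s n + κ n * s n ^ 2 = 9 := by
    have h1 := hs8 n
    have h4 : s n ≠ 0 := by
      intro h; rw [h] at h1; norm_num at h1
    simp only [hκ]
    field_simp
    ring
  obtain ⟨p, hp, hp1, hp2⟩ := boundary_data (by linarith [hs8 n]) (hκ0 n) hF
  refine ⟨VV (κ n), FF (κ n), uu, smoothRegion (hκ0 n), radiatingField _, ⟨p, hp, hp1⟩,
    ⟨p, hp, hp2⟩, integrableOn_density (hκ0 n) (hκ1 n), ?_⟩
  unfold lagrangian
  rw [setIntegral_density]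
  linarith

end Pool.Agent.Results.MP_871f9b_an.PositiveLagrangian
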